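import Mathlib
import Pool.Agent.Run7.h18.MK.Poly4

set_option autoImplicit false

/-!
# Primes along all short polynomial sequences after almost every integer

Project MK of this run (mean square of primes in intervals of length `N^(1/3) log^C N`, correlations with the sieve
model), the polynomial Weyl sums `H373R2.NB.IW_all` and the sieve counts `H373R2.T7.sys_count` of the starting files.
New: the law of random shifts with major arcs (`Run7.h18.MK.t_T31G`), applied to all polynomials at once.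
-/

open Polynomial Finset

namespace Pool.Agent.Results.MP_028722_nt.AllShortPolynomialSequences

/-- The number of the residues `r` modulo `p` for which `p` divides `n + f(r)`. -/
noncomputable def rootCount (f : ℤ[X]) (n : ℤ) (p : ℕ) : ℕ :=
  ((range p).filter (fun r : ℕ => (p : ℤ) ∣ n + f.eval (r : ℤ))).card

/-- The expected density of the primes: the product of `(1 - rootCount / p) / (1 - 1 / p)` over the primes `p ≤ z`. -/
noncomputable def density (f : ℤ[X]) (n : ℤ) (z : ℕ) : ℝ :=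
  ∏ p ∈ (Icc 1 z).filter Nat.Prime, (1 - (rootCount f n p : ℝ) / p) / (1 - 1 / (p : ℝ))

/-- The primes among `n + f(1), ..., n + f(x)`, each counted with the weight `log (n + f(m))`. -/
noncomputable def primeSum (f : ℤ[X]) (n : ℤ) (x : ℕ) : ℝ :=
  ∑ m ∈ (Icc 1 x).filter (fun m : ℕ => (n + f.eval (m : ℤ)).toNat.Prime), Real.log ((n + f.eval (m : ℤ) : ℤ) : ℝ)

/-- Let `d ≥ 1`, `T` and `U` be integers. There are `C` and `B` such that for every `E` and all large `N`, with
`L = log N`, and for every `z` between `L ^ B` and `L ^ E`, all but at most `N / L ^ U` of the integers `n` in `[1, N]`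
have the following property: for ALL integer polynomials `f` with `1 ≤ deg f ≤ d` and coefficients at most `L ^ T` in
absolute value and ALL integers `x` with `N ^ (1/3) L ^ C ≤ x ^ (deg f) ≤ N / L ^ C`, the numbers `n + f(m)`, `m ≤ x`,
are positive, the primes among them counted with their logarithms number `x * density + O(x / L ^ U)`, and if no prime
divides all the values of `n + f`, then the density is at least `1 / L ^ (d+1)` and (if `U ≥ d + 2`) some `n + f(m)`
with `1 ≤ m ≤ x` is prime. -/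
theorem result (d T U : ℕ) (hd : 1 ≤ d) : ∃ C B : ℕ, ∀ E : ℕ, ∃ N₀ : ℕ, ∀ N : ℕ, N₀ ≤ N → ∀ z : ℕ,
    Real.log N ^ B ≤ z → (z : ℝ) ≤ Real.log N ^ E →
    ∃ Ex : Finset ℕ, (Ex.card : ℝ) ≤ N / Real.log N ^ U ∧ ∀ n ∈ Icc 1 N, n ∉ Ex →
      ∀ f : ℤ[X], 1 ≤ f.natDegree → f.natDegree ≤ d → (∀ i, |((f.coeff i : ℤ) : ℝ)| ≤ Real.log N ^ T) →
      ∀ x : ℕ, (N : ℝ) ^ (1 / 3 : ℝ) * Real.log N ^ C ≤ (x : ℝ) ^ f.natDegree →
        (x : ℝ) ^ f.natDegree * Real.log N ^ C ≤ N →
        (∀ m ∈ Icc 1 x, 1 ≤ (n : ℤ) + f.eval (m : ℤ)) ∧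
        |primeSum f n x - x * density f n z| ≤ x / Real.log N ^ U ∧
        ((∀ p : ℕ, p.Prime → ∃ m : ℤ, ¬ (p : ℤ) ∣ (n : ℤ) + f.eval m) →
          1 / Real.log N ^ (d + 1) ≤ density f n z ∧
          (d + 2 ≤ U → ∃ m ∈ Icc 1 x, ((n : ℤ) + f.eval (m : ℤ)).toNat.Prime)) := by
  classical
  obtain ⟨C, B, h⟩ := Pool.Agent.Run7.h18.MK.poly_fin d T U hd
  refine ⟨C, B, fun E => ?_⟩
  obtain ⟨N₁, h⟩ := h E
  obtain ⟨N₂, h2⟩ := Pool.Agent.Run7.h18.MK.ev 1 2
  refine ⟨N₁ + N₂, fun N hN z hz1 hz2 => ?_⟩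
  obtain ⟨Ex, hE1, hE2⟩ := h N (by omega) z hz1 hz2
  obtain ⟨hL2, -⟩ := h2 N (by omega)
  have hL0 : 0 < Real.log (N : ℝ) := by linarith
  refine ⟨Ex, hE1, fun n hn hnE f hf1 hf2 hcf x hx1 hx2 => ?_⟩
  obtain ⟨a1, a2⟩ := hE2 n hn hnE f hf1 hf2 hcf
  obtain ⟨a3, a4⟩ := a2 x hx1 hx2
  have hroot : ∀ p : ℕ, rootCount f n p = Pool.Agent.H373R2.T7.nuB (Pool.Agent.Run7.h18.MK.Rt f n) p := by
    intro p
    unfold rootCount Pool.Agent.H373R2.T7.nuB Pool.Agent.Run7.h18.MK.Rt
    congr!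
  have hden : density f n z = Pool.Agent.Run7.h18.MK.Sg f n z := by
    unfold density Pool.Agent.Run7.h18.MK.Sg Pool.Agent.H373R2.T7.Vz Pool.Agent.H373R2.T7.pz
    rw [prod_div_distrib, div_eq_inv_mul]
    congr 1
    exact prod_congr rfl fun p _ => by rw [hroot]
  have hsum : primeSum f n x = ∑ m ∈ Icc 1 x, Pool.Agent.R460.SQ.thp ((n : ℤ) + f.eval (m : ℤ)).toNat := by
    unfold primeSum Pool.Agent.R460.SQ.thp
    rw [sum_filter]
    refine sum_congr rfl fun m hm => ?_
    have h5 := a3 m hm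
    have h6 : ((((n : ℤ) + f.eval (m : ℤ)).toNat : ℕ) : ℝ) = (((n : ℤ) + f.eval (m : ℤ) : ℤ) : ℝ) := by
      rw [← Int.cast_natCast, Int.toNat_of_nonneg (by omega)]
    rw [h6]
  rw [hden, hsum]
  refine ⟨a3, a4, fun hfix => ⟨a1 hfix, fun hU => ?_⟩⟩
  by_contra hcon
  push Not at hcon
  have h7 : ∑ m ∈ Icc 1 x, Pool.Agent.R460.SQ.thp ((n : ℤ) + f.eval (m : ℤ)).toNat = 0 := by
    apply sum_eq_zero
    intro m hm
    unfold Pool.Agent.R460.SQ.thp
    rw [if_neg (hcon m hm)]
  rw [h7, zero_sub, abs_neg] at a4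
  have h8 := a1 hfix
  have hxe : (0 : ℝ) < (x : ℝ) ^ f.natDegree := by
    refine lt_of_lt_of_le ?_ hx1
    have : (0 : ℝ) < N := by
      have h9 : N ≠ 0 := by
        intro h9
        rw [h9, Nat.cast_zero, Real.log_zero] at hL2
        linarith
      exact_mod_cast Nat.pos_of_ne_zero h9
    positivity
  have hx0 : (0 : ℝ) < x := by
    rcases Nat.eq_zero_or_pos x with h | h
    · rw [h, Nat.cast_zero, zero_pow (by omega)] at hxe
      exact absurd hxe (lt_irrefl _)
    · exact_mod_cast h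
  have h9 : (x : ℝ) * (1 / Real.log N ^ (d + 1)) ≤ x / Real.log N ^ U :=
    (mul_le_mul_of_nonneg_left h8 hx0.le).trans ((le_abs_self _).trans a4)
  have h10 : (x : ℝ) / Real.log N ^ U < x * (1 / Real.log N ^ (d + 1)) := by
    rw [mul_one_div]
    apply div_lt_div_of_pos_left hx0 (by positivity)
    calc Real.log (N : ℝ) ^ (d + 1) < Real.log (N : ℝ) ^ (d + 2) := pow_lt_pow_right₀ (by linarith) (by omega)
      _ ≤ _ := pow_le_pow_right₀ (by linarith) hU
  linarith

end Pool.Agent.Results.MP_028722_nt.AllShortPolynomialSequences
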