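import Pool.Agent.Run7.h63.PM7

set_option autoImplicit false

/-!
# Large prime gaps around the values of arbitrary polynomials with rational coefficients

Starting files used: the count of the survivors of Rankin's two steps for an arbitrary second class
(`Pool.Agent.H426R3.SQ.S3e`), the injective choice and the largeness lemma of `SQ.M1a`, Mertens' estimate.
New: for every integer polynomial `f` there are, uniformly in the shift `u`, at least `y` primes in `(y, y^A]`
modulo which `f + u` has a root (divided differences bound the contribution of the prime powers to the values).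
-/

open Polynomial

namespace Pool.Agent.Results.MP_028722_nt.PolynomialValues

/-- Let `f 1, ..., f r` be nonconstant polynomials with rational coefficients and positive leading coefficients and let
`ε > 0`. There are `c > 0` and `Y₀` such that for all `Y ≥ Y₀` and all integers `M ≥ 0` the interval `(M, M + Y]`
contains at least `Y ^ (1 - ε)` integers `n` such that for every `i` no prime lies within
`c log Y log₂ Y log₄ Y / (log₃ Y)²` of `f i (n)`. -/
theorem result (r : ℕ) (f : Fin r → ℚ[X]) (hd : ∀ i, 1 ≤ (f i).natDegree)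
    (hlc : ∀ i, 0 < (f i).leadingCoeff) (ε : ℝ) (hε : 0 < ε) :
    ∃ c : ℝ, 0 < c ∧ ∃ Y₀ : ℝ, ∀ Y : ℝ, Y₀ ≤ Y → ∀ M : ℤ, 0 ≤ M →
      Y ^ (1 - ε) ≤ ({n : ℤ | M < n ∧ (n : ℝ) ≤ M + Y ∧ ∀ i, ∀ q : ℕ, q.Prime →
        c * (Real.log Y * Real.log (Real.log Y) * Real.log (Real.log (Real.log (Real.log Y))) /
          (Real.log (Real.log (Real.log Y))) ^ 2) <
            |(q : ℝ) - (((f i).eval (n : ℚ) : ℚ) : ℝ)|}.ncard : ℝ) := by
  obtain ⟨c, hc, Y₀, h⟩ := Run7.h63.PV.rat_main f hd hlc (min ε 1) (lt_min hε one_pos)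
    (min_le_right _ _)
  refine ⟨c, hc, max Y₀ 1, fun Y hY M hM => ?_⟩
  obtain ⟨S, hS1, hS2⟩ := h Y ((le_max_left _ _).trans hY) M hM
  have hY1 : 1 ≤ Y := (le_max_right _ _).trans hY
  refine (Real.rpow_le_rpow_of_exponent_le hY1
    (sub_le_sub_left (min_le_left ε 1) 1)).trans (hS1.trans ?_)
  have hfin : {n : ℤ | M < n ∧ (n : ℝ) ≤ M + Y ∧ ∀ i, ∀ q : ℕ, q.Prime →
        c * (Real.log Y * Real.log (Real.log Y) * Real.log (Real.log (Real.log (Real.log Y))) /
          (Real.log (Real.log (Real.log Y))) ^ 2) <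
            |(q : ℝ) - (((f i).eval (n : ℚ) : ℚ) : ℝ)|}.Finite := by
    apply (Set.finite_Ioc M (M + ⌈Y⌉)).subset
    intro n hn
    refine ⟨hn.1, ?_⟩
    have h1 : (n : ℝ) ≤ M + Y := hn.2.1
    have h2 := Int.le_ceil Y
    have h3 : (n : ℝ) ≤ ((M + ⌈Y⌉ : ℤ) : ℝ) := by
      push_cast
      linarith
    exact_mod_cast h3
  rw [← Set.ncard_coe_finset]
  have hsub : (S : Set ℤ) ⊆ {n : ℤ | M < n ∧ (n : ℝ) ≤ M + Y ∧ ∀ i, ∀ q : ℕ, q.Prime →
        c * (Real.log Y * Real.log (Real.log Y) * Real.log (Real.log (Real.log (Real.log Y))) /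
          (Real.log (Real.log (Real.log Y))) ^ 2) <
            |(q : ℝ) - (((f i).eval (n : ℚ) : ℚ) : ℝ)|} := by
    intro n hn
    exact hS2 n hn
  exact_mod_cast Set.ncard_le_ncard hsub hfin

end Pool.Agent.Results.MP_028722_nt.PolynomialValues
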