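import Pool.Agent.Run7.h251.NI.Law
import Pool.Agent.Run7.h251.NI.Fam

/-!
# Cramér's law, with the constant one, for words in `O(log log N)` affine maps

Cramér's conjecture says that some of `n + 1, ..., n + m` is a prime for all `n ≤ N` if `m ≥ C log^2 N`, and `C = 1 + ε` is expected
to be enough. Here the shifts `1, ..., m` are replaced by `s 0, ..., s (m - 1)`, where `s j = c j + M (b j + 1 + y_j)`, the residues
`c j` modulo `M` and the windows `b j` are prescribed (for instance `c j = j`: the perturbed interval has the residues of an interval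
modulo the small primes), and `y_j` comes from `k` affine maps `h 0, ..., h (k - 1)` of a finite field `K` and a point `x` of `K`:
it is the projection to `F_p` of the image of `x` under the composition of the maps `h i` for which the binary digit `i` of `j` is one.
The law holds for almost all `x`, `h 0, ..., h (k - 1)`. If `|K| = p^6` and `2^k ≤ log^3 N` these are only `p^(12 k + 6) = N^(O(log log N))`
sequences; independent shifts (`MP_b0c12c_nt.RandomShifts`, `MP_f9960f_nt.SmallPrimesDecide`, helper931, whose estimates for the primes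
and prime pairs are used) need `exp(c log^3 N)`, and the values of polynomials (`MP_ff81b6_nt.LimitedIndependence`) `exp(c log^2 N)`.

Method: this is the generator of Nisan, with affine maps as pairwise independent hash functions. By Cauchy-Schwarz, for all sets `U`, `V`
and almost all `h` the events `x ∈ U` and `h x ∈ V` are almost independent; by induction on `k` every product set has the right
probability for the `2^k` points up to `2^k / √|K|`, which is less than `N^(-9/4)`. The events that `n`, or both of `n`, `n'`, survive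
are product sets, so that the first and second moments are those of the independent shifts.
-/

set_option autoImplicit false

namespace Pool.Agent.Results.MP_028722_nt.WordsInAffineMaps

open Finset

/-- The image of `x` under the composition of the affine maps `y ↦ (h i).1 y + (h i).2`, `i < k`, for which the binary digit `i` of `j`
is one (the map `h 0` is applied last). -/
def word {K : Type} [Field K] : (k : ℕ) → (Fin k → K × K) → K → ℕ → K
  | 0, _, x, _ => x
  | k + 1, h, x, j => if j % 2 = 1 then (h 0).1 * word k (fun i => h i.succ) x (j / 2) + (h 0).2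
      else word k (fun i => h i.succ) x (j / 2)

/-- The shift `s j = c j + M (b j + 1 + π (word of j))`, where `z = (x, h)` and the value of `π` is taken in `[0, p)`. -/
def shift {K : Type} [Field K] (M p k : ℕ) (π : K →+ ZMod p) (c b : ℕ → ℕ) (z : K × (Fin k → K × K)) (j : ℕ) : ℕ :=
  c j + M * (b j + 1 + (π (word k z.2 z.1 j)).val)

/-- The integers `1 ≤ n ≤ N` for which none of `n + s 0, ..., n + s (m - 1)` is a prime. -/
def composite (N m : ℕ) (s : ℕ → ℕ) : Finset ℕ := (Icc 1 N).filter fun n => ∀ j < m, ¬ (n + s j).Prime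

open Classical in
/-- The largest `k ≤ m` for which there is an integer `1 ≤ n ≤ N` such that none of `n + s 0, ..., n + s (k - 1)` is a prime. -/
noncomputable def longest (N m : ℕ) (s : ℕ → ℕ) : ℕ :=
  Nat.findGreatest (fun k => ∃ n, 1 ≤ n ∧ n ≤ N ∧ ∀ j < k, ¬ (n + s j).Prime) m

/-- What the prime divisors of `M` leave of `c 0, ..., c (k - 1)`: the least number, over all `n`, of `j < k` with `n + c j`
coprime to `M`. -/
noncomputable def rest (M : ℕ) (c : ℕ → ℕ) (k : ℕ) : ℕ :=
  sInf (Set.range fun n : ℕ => ((range k).filter fun j => (n + c j).Coprime M).card)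

/-- The effective number `(M / φ(M)) * rest` of the residues `c 0, ..., c (k - 1)`. -/
noncomputable def size (M : ℕ) (c : ℕ → ℕ) (k : ℕ) : ℝ := (M : ℝ) / Nat.totient M * rest M c k

open Classical in
/-- For every `0 < ε ≤ 1` there is `w₀` such that the following holds for all `T`, `a`, for all `w ≥ w₀` and for every modulus `M`
whose prime divisors are exactly the primes up to `w`. For all large `N`, all primes `p` with `N / log^a N ≤ M p ≤ N`, all finite fields
`K` with at least `p^6` elements and surjective homomorphisms `π : K → F_p` of the additive groups, all `k` with `4^k ≤ p`,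
all `m ≤ 2^k`, all sequences of residues `c j` and windows `b j` with `c j + M b j ≤ T N`, the `|K|^(2 k + 1)` choices of a point
`x` and of `k` affine maps of `K` and the shifts `s j = c j + M (b j + 1 + π (word of j))` satisfy, with `Λ = size M c`:

**(1)** If `Λ m ≥ (1 + ε) log^2 N`, then for all but a proportion of at most `N^(-ε/2)` of the choices there is no `n ≤ N`
such that `n + s 0, ..., n + s (m - 1)` are all composite (not prime).

**(2)** If `Λ m ≤ (1 - ε) log^2 N`, then for all but a proportion of at most `ε` of the choices the number of these `n ≤ N`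
is between `N^(1 - Λ m/log^2 N - ε)` and `N^(1 - Λ m/log^2 N + ε)`.

**(3)** If `Λ m ≥ (1 + ε) log^2 N`, then for all but a proportion of at most `ε` of the choices the largest `l ≤ m` such
that `n + s 0, ..., n + s (l - 1)` are all composite for some `n ≤ N` satisfies `|Λ l - log^2 N| ≤ ε log^2 N`.

**(4)** If `c j = j` for all `j < m` and `m ≥ (1 + ε) log^2 N`, then for all but a proportion of at most `ε` of the choices
this `l` is between `(1 - ε) log^2 N` and `(1 + ε) log^2 N`. -/
theorem result (ε : ℝ) (hε : 0 < ε) (hε1 : ε ≤ 1) : ∃ w₀ : ℕ, ∀ T a w : ℕ, w₀ ≤ w → ∀ M : ℕ, 1 ≤ M →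
    (∀ r : ℕ, r.Prime → (r ∣ M ↔ r ≤ w)) → ∃ N₀ : ℕ, ∀ N : ℕ, N₀ ≤ N → ∀ (p : ℕ) [Fact p.Prime],
    (N : ℝ) ≤ (M * p : ℕ) * Real.log N ^ a → M * p ≤ N →
    ∀ (K : Type) [Field K] [Fintype K], p ^ 6 ≤ Fintype.card K → ∀ π : K →+ ZMod p, Function.Surjective π →
    ∀ k m : ℕ, 4 ^ k ≤ p → m ≤ 2 ^ k → ∀ (c b : ℕ → ℕ), (∀ j, c j + M * b j ≤ T * N) →
      ((1 + ε) * Real.log N ^ 2 ≤ size M c m →
        ((univ.filter fun z : K × (Fin k → K × K) => (composite N m (shift M p k π c b z)).Nonempty).card : ℝ) ≤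
          (N : ℝ) ^ (-(ε / 2)) * (Fintype.card K : ℝ) ^ (2 * k + 1)) ∧
      (size M c m ≤ (1 - ε) * Real.log N ^ 2 →
        ((univ.filter fun z : K × (Fin k → K × K) => ¬ ((N : ℝ) ^ (1 - size M c m / Real.log N ^ 2 - ε) ≤
            (composite N m (shift M p k π c b z)).card ∧
          ((composite N m (shift M p k π c b z)).card : ℝ) ≤ (N : ℝ) ^ (1 - size M c m / Real.log N ^ 2 + ε))).card : ℝ) ≤
            ε * (Fintype.card K : ℝ) ^ (2 * k + 1)) ∧
      ((1 + ε) * Real.log N ^ 2 ≤ size M c m →
        ((univ.filter fun z : K × (Fin k → K × K) => ε * Real.log N ^ 2 <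
          |size M c (longest N m (shift M p k π c b z)) - Real.log N ^ 2|).card : ℝ) ≤ ε * (Fintype.card K : ℝ) ^ (2 * k + 1)) ∧
      ((∀ j < m, c j = j) → (1 + ε) * Real.log N ^ 2 ≤ m →
        ((univ.filter fun z : K × (Fin k → K × K) => ε * Real.log N ^ 2 <
          |(longest N m (shift M p k π c b z) : ℝ) - Real.log N ^ 2|).card : ℝ) ≤ ε * (Fintype.card K : ℝ) ^ (2 * k + 1)) := by
  obtain ⟨w₁, h₁⟩ := Run7.h251.NI.two_N ε hε hε1
  obtain ⟨w₂, h₂⟩ := Run7.h251.NI.law_N ε hε hε1
  obtain ⟨w₃, h₃⟩ := Run7.h251.NI.law_iN ε hε hε1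
  refine ⟨max w₁ (max w₂ w₃), fun T a w hw M hM1 hM => ?_⟩
  have g0 := Run7.h251.NI.one_N T a w M hM1 hM ε hε hε1
  have g1 := h₁ T a w (by omega) M hM1 hM
  have g2 := h₂ T a w (by omega) M hM1 hM
  have g3 := h₃ T a w (by omega) M hM1 hM
  have g4 := Pool.Agent.Run7.h931.RL.ev_pow (10 * a) ((M : ℝ) ^ 10) (by positivity)
  obtain ⟨N₀, hN₀⟩ := Filter.eventually_atTop.1 (g0.and (g1.and (g2.and (g3.and (g4.and (Filter.eventually_ge_atTop 3))))))
  refine ⟨N₀, fun N hN p _ hq hqN K _ _ hK π hπ k m hk hm c b hb => ?_⟩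
  obtain ⟨k0, k1, k2, k3, k4, k5⟩ := hN₀ N hN
  have hfool := Run7.h251.NI.word_fool M p k m hM1 π hπ c b hm
  have hcard : (Fintype.card (K × (Fin k → K × K)) : ℝ) = (Fintype.card K : ℝ) ^ (2 * k + 1) := by
    rw [Fintype.card_prod, Fintype.card_fun, Fintype.card_prod, Fintype.card_fin]
    push_cast
    ring
  have hp0 : (0 : ℝ) < p := by exact_mod_cast (Fact.out : p.Prime).pos
  have hN0 : (0 : ℝ) < N := by exact_mod_cast (by omega : 0 < N)
  have hQ : (p : ℝ) ^ 6 ≤ Fintype.card K := by exact_mod_cast hK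
  have hQ0 : (0 : ℝ) < Fintype.card K := lt_of_lt_of_le (by positivity) hQ
  have hδ : (2 : ℝ) ^ k / Real.sqrt (Fintype.card K) ≤ Real.exp (-(9 / 4 * Real.log N)) := by
    have h4 : ((2 : ℝ) ^ k / Real.sqrt (Fintype.card K)) ^ 4 = ((4 : ℝ) ^ k) ^ 2 / (Fintype.card K : ℝ) ^ 2 := by
      have e1 : Real.sqrt (Fintype.card K) ^ 4 = (Fintype.card K : ℝ) ^ 2 := by
        rw [show (4 : ℕ) = 2 * 2 by norm_num, pow_mul, Real.sq_sqrt hQ0.le]
      have e2 : ((2 : ℝ) ^ k) ^ 4 = ((4 : ℝ) ^ k) ^ 2 := by
        rw [show (4 : ℝ) = 2 ^ 2 by norm_num, ← pow_mul, ← pow_mul, ← pow_mul]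
        congr 1
        ring
      rw [div_pow, e1, e2]
    have h5 : (4 : ℝ) ^ k ≤ p := by exact_mod_cast hk
    have h6 : ((4 : ℝ) ^ k) ^ 2 / (Fintype.card K : ℝ) ^ 2 ≤ (p : ℝ) ^ 2 / ((p : ℝ) ^ 6) ^ 2 :=
      div_le_div₀ (by positivity) (pow_le_pow_left₀ (by positivity) h5 2) (by positivity) (pow_le_pow_left₀ (by positivity) hQ 2)
    have h7 : (p : ℝ) ^ 2 / ((p : ℝ) ^ 6) ^ 2 = 1 / (p : ℝ) ^ 10 := by field_simp
    have h8 : (N : ℝ) ^ 9 ≤ (p : ℝ) ^ 10 := by
      have e1 : (N : ℝ) ≤ p * (M * Real.log N ^ a) := by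
        refine hq.trans (le_of_eq ?_)
        push_cast
        ring
      have e2 := pow_le_pow_left₀ hN0.le e1 10
      have e3 : (p * ((M : ℝ) * Real.log N ^ a)) ^ 10 = p ^ 10 * ((M : ℝ) ^ 10 * Real.log N ^ (10 * a)) := by ring
      rw [e3] at e2
      have e4 : (p : ℝ) ^ 10 * ((M : ℝ) ^ 10 * Real.log N ^ (10 * a)) ≤ p ^ 10 * N := mul_le_mul_of_nonneg_left k4 (by positivity)
      have e5 : (N : ℝ) ^ 9 * N ≤ p ^ 10 * N := by
        have : (N : ℝ) ^ 9 * N = N ^ 10 := by ring
        rw [this]
        exact e2.trans e4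
      exact le_of_mul_le_mul_right e5 hN0
    have h9 : Real.exp (-(9 / 4 * Real.log N)) ^ 4 = 1 / (N : ℝ) ^ 9 := by
      rw [← Real.exp_nat_mul]
      have e1 : ((4 : ℕ) : ℝ) * -(9 / 4 * Real.log N) = -(((9 : ℕ) : ℝ) * Real.log N) := by push_cast; ring
      rw [e1, Real.exp_neg, Real.exp_nat_mul, Real.exp_log hN0, one_div]
    have h10 : ((2 : ℝ) ^ k / Real.sqrt (Fintype.card K)) ^ 4 ≤ Real.exp (-(9 / 4 * Real.log N)) ^ 4 := by
      rw [h4, h9]
      refine (h6.trans (le_of_eq h7)).trans ?_
      exact one_div_le_one_div_of_le (by positivity) h8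
    exact (pow_le_pow_iff_left₀ (by positivity) (Real.exp_pos _).le (by norm_num)).1 h10
  have hδ0 : (0 : ℝ) ≤ (2 : ℝ) ^ k / Real.sqrt (Fintype.card K) := by positivity
  have hsize : ∀ k, size M c k = Pool.Agent.Run7.h931.RS.Pw w * Pool.Agent.Run7.h931.RL.sur M c k := by
    intro k
    have h1 := Pool.Agent.Run7.h931.RL.tot_P w M hM1 hM
    have h2 : (0 : ℝ) < Nat.totient M := by exact_mod_cast Nat.totient_pos.2 hM1
    have h3 : (M : ℝ) / Nat.totient M = Pool.Agent.Run7.h931.RS.Pw w := by
      rw [← h1]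
      field_simp
    unfold size
    rw [h3]
    rfl
  have hword : ∀ (k : ℕ) (h : Fin k → K × K) (x : K) (j : ℕ), word k h x j = Run7.h251.NI.word k h x j := by
    intro k
    induction k with
    | zero => intro h x j; rfl
    | succ k ih =>
      intro h x j
      unfold word Run7.h251.NI.word
      rw [ih]
  have hshift : ∀ z : K × (Fin k → K × K), shift M p k π c b z = Run7.h251.NI.wseq M p k π c b z := by
    intro z
    funext j
    unfold shift Run7.h251.NI.wseq
    rw [hword]
  have l0 := k0 (M * p) hq hqN _ m c (fun j => c j + M * b j) hδ hb _ _ hfool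
  have l1 := k1 (M * p) hq hqN _ m c (fun j => c j + M * b j) hδ0 hδ hb _ _ hfool
  have l2 := k2 (M * p) hq hqN _ m c (fun j => c j + M * b j) hδ0 hδ hb _ _ hfool
  have l3 := k3 (M * p) hq hqN _ m c (fun j => c j + M * b j) hδ0 hδ hb _ _ hfool
  rw [hcard] at l0 l1 l2 l3
  have e1 : ∀ z : K × (Fin k → K × K), composite N m (shift M p k π c b z) =
      Run7.h251.KW.surv N m (Run7.h251.NI.wseq M p k π c b z) := by
    intro z
    rw [hshift]
    ext n
    unfold composite Run7.h251.KW.surv
    simp only [mem_filter]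
  have e2 : ∀ z : K × (Fin k → K × K), longest N m (shift M p k π c b z) =
      Run7.h251.KW.runS N m (Run7.h251.NI.wseq M p k π c b z) := by
    intro z
    rw [hshift]
    unfold longest Run7.h251.KW.runS Run7.h251.KW.FreeS
    congr
  simp only [e1, e2, hsize]
  refine ⟨fun h => ?_, fun h => ?_, fun h => ?_, fun h1 h2 => ?_⟩
  · exact l0 h
  · exact l1 h
  · exact l2 h
  · exact l3 h1 h2

end Pool.Agent.Results.MP_028722_nt.WordsInAffineMaps
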